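import Pool.Agent.Helper75.PX.Stmts2

/-!
PX, row RK2: the rank of the antisymmetrizer on two factors.
-/

namespace Pool.Agent.Helper75.PX

universe u

namespace Rk13

theorem card_lt (n : ℕ) : Fintype.card {p : Fin n × Fin n // p.1 < p.2} = n.choose 2 := by
  classical
  rw [Fintype.card_subtype, Finset.card_filter, Fintype.sum_prod_type_right]
  have h : ∀ j : Fin n, (∑ i : Fin n, if i < j then 1 else 0) = (j : ℕ) := by
    intro j
    rw [← Finset.card_filter]
    have h2 : Finset.filter (fun i : Fin n => i < j) Finset.univ = Finset.Iio j := by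
      ext i
      simp
    rw [h2, Fin.card_Iio]
  simp only [h]
  rw [Fin.sum_univ_eq_sum_range (fun i => i) n, Finset.sum_range_id, Nat.choose_two_right]

theorem entry (Ω : Type u) [Field Ω] (n : ℕ) (p q : Fin n × Fin n) :
    E2 Ω n p q = (if p = q then 1 else 0) - (if fl2 n p = q then 1 else 0) := by
  simp [E2, Pm, Matrix.one_apply]

theorem span_eq (Ω : Type u) [Field Ω] (n : ℕ) :
    Submodule.span Ω (Set.range (E2 Ω n).row) =
      Submodule.span Ω (Set.range fun q : {p : Fin n × Fin n // p.1 < p.2} =>
        (E2 Ω n).row q.1) := by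
  apply le_antisymm
  · rw [Submodule.span_le]
    rintro _ ⟨p, rfl⟩
    rcases lt_trichotomy p.1 p.2 with h | h | h
    · exact Submodule.subset_span ⟨⟨p, h⟩, rfl⟩
    · have h0 : (E2 Ω n).row p = 0 := by
        funext q
        have hp : fl2 n p = p := by
          unfold fl2
          exact Prod.ext h.symm h
        change E2 Ω n p q = 0
        rw [entry, hp, sub_self]
      rw [h0]
      exact Submodule.zero_mem _
    · have h0 : (E2 Ω n).row p = -(E2 Ω n).row (fl2 n p) := by
        funext q
        change E2 Ω n p q = -E2 Ω n (fl2 n p) q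
        have hp : fl2 n (fl2 n p) = p := rfl
        rw [entry, entry, hp, neg_sub]
      rw [h0]
      exact Submodule.neg_mem _ (Submodule.subset_span ⟨⟨fl2 n p, h⟩, rfl⟩)
  · apply Submodule.span_mono
    rintro _ ⟨q, rfl⟩
    exact ⟨q.1, rfl⟩

theorem indep (Ω : Type u) [Field Ω] (n : ℕ) :
    LinearIndependent Ω (fun q : {p : Fin n × Fin n // p.1 < p.2} => (E2 Ω n).row q.1) := by
  classical
  rw [Fintype.linearIndependent_iff]
  intro c hc q0
  have h := congrFun hc q0.1
  rw [Finset.sum_apply] at h
  rw [Finset.sum_eq_single q0] at h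
  · change c q0 * E2 Ω n q0.1 q0.1 = 0 at h
    have hne : fl2 n q0.1 ≠ q0.1 := by
      intro h1
      have h2 := congrArg Prod.fst h1
      have h3 := q0.2
      unfold fl2 at h2
      simp only at h2
      rw [h2] at h3
      exact lt_irrefl _ h3
    rw [entry, if_pos rfl, if_neg hne, sub_zero, mul_one] at h
    exact h
  · intro q _ hq
    change c q * E2 Ω n q.1 q0.1 = 0
    have h1 : q.1 ≠ q0.1 := fun h2 => hq (Subtype.ext h2)
    have h2 : fl2 n q.1 ≠ q0.1 := by
      intro h3
      have h4 := congrArg Prod.fst h3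
      have h5 := congrArg Prod.snd h3
      unfold fl2 at h4 h5
      simp only at h4 h5
      have h6 := q.2
      have h7 := q0.2
      rw [← h4, ← h5] at h7
      exact lt_asymm h6 h7
    rw [entry, if_neg h1, if_neg h2, sub_zero, mul_zero]
  · intro h1
    exact absurd (Finset.mem_univ _) h1

end Rk13

theorem st_RK2 : ST_RK2.{u} := by
  intro Ω _ n
  rw [Matrix.rank_eq_finrank_span_row, Rk13.span_eq, finrank_span_eq_card (Rk13.indep Ω n),
    Rk13.card_lt]

end Pool.Agent.Helper75.PX
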